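import Mathlib
import Pool.Agent.Helper55.JS.Reg

/-!
# Regularisation for two forbidden graphs

The argument is that of `Pool.Agent.Helper55.JS.Reg`, for the class of graphs which contain
neither `H1` nor `H2`.
-/

set_option autoImplicit false
set_option linter.unusedSectionVars false
set_option linter.unusedVariables false

namespace Pool.Agent.Helper25.TH

open Finset Pool.Agent.Helper55.JS.RG.Reg

section counting

open scoped Classical

variable {V : Type} [Fintype V]

/-- the bound for one order -/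
def Bd {U1 U2 : Type} (H1 : SimpleGraph U1) (H2 : SimpleGraph U2) (y A : ℝ) (m : ℕ) : Prop :=
  ∀ G : SimpleGraph (Fin m), H1.Free G → H2.Free G →
    (cnt G univ univ : ℝ) ≤ 2 * (A * (m : ℝ) ^ (1 + y))

lemma cnt_le_bd {U1 U2 : Type} (H1 : SimpleGraph U1) (H2 : SimpleGraph U2) (y A : ℝ)
    (G : SimpleGraph V) (hG1 : H1.Free G) (hG2 : H2.Free G)
    (T : Finset V) (hb : Bd H1 H2 y A T.card) :
    (cnt G T T : ℝ) ≤ 2 * (A * (T.card : ℝ) ^ (1 + y)) := by
  rw [cnt_subtype]
  have e : (T : Set V) ≃ Fin T.card := by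
    refine Fintype.equivFinOfCardEq ?_
    simp
  have hsub : ((G.induce (T : Set V)).comap e.symm).IsContained G := by
    refine SimpleGraph.IsContained.trans ⟨?_⟩ ⟨SimpleGraph.Copy.induce G (T : Set V)⟩
    exact ⟨⟨e.symm, fun {a b} hab => hab⟩, e.symm.injective⟩
  have h1 := hb ((G.induce (T : Set V)).comap e.symm) (fun h => hG1 (h.trans hsub))
    (fun h => hG2 (h.trans hsub))
  refine le_trans (le_of_eq ?_) h1
  congr 1
  unfold cnt
  rw [← Equiv.sum_comp e.symm]
  apply Finset.sum_congr rfl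
  intro a _
  rw [← Equiv.sum_comp e.symm]
  apply Finset.sum_congr rfl
  intro b _
  simp

/-- the key estimate: vertices of large degree touch few edges -/
lemma big_vertices {U1 U2 : Type} (H1 : SimpleGraph U1) (H2 : SimpleGraph U2)
    (G : SimpleGraph V) (hG1 : H1.Free G) (hG2 : H2.Free G)
    (y A : ℝ) (hy : 0 < y) (hA : 0 < A) (L : ℕ) (hL3 : 3 ≤ L) (hL : (2 / (L : ℝ)) ^ y ≤ 1 / 16)
    (hmin : ∀ m < Fintype.card V, Bd H1 H2 y A m)
    (S : Finset V) (hS : ∀ v ∈ S, L * cnt G univ univ < Fintype.card V * cnt G {v} univ) :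
    4 * (cnt G S univ : ℝ) ≤ A * (Fintype.card V : ℝ) ^ (1 + y) := by
  set n := Fintype.card V with hn
  rcases S.eq_empty_or_nonempty with h0 | hne
  · subst h0
    simp only [cnt, Finset.sum_empty, Nat.cast_zero, mul_zero]
    positivity
  have hVne : Nonempty V := ⟨hne.choose⟩
  have hn0 : 0 < n := Fintype.card_pos
  have hsum : L * cnt G univ univ * S.card < n * cnt G univ univ := by
    calc L * cnt G univ univ * S.card = ∑ v ∈ S, L * cnt G univ univ := by
          simp [mul_comm]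
      _ < ∑ v ∈ S, n * cnt G {v} univ := Finset.sum_lt_sum_of_nonempty hne hS
      _ = n * cnt G S univ := by rw [← Finset.mul_sum, ← cnt_eq_sum]
      _ ≤ n * cnt G univ univ := Nat.mul_le_mul_left _ (cnt_mono G (subset_univ _) subset_rfl)
  have hLS : L * S.card < n := by
    by_contra h
    push Not at h
    have : n * cnt G univ univ ≤ L * cnt G univ univ * S.card := by
      calc n * cnt G univ univ ≤ (L * S.card) * cnt G univ univ := Nat.mul_le_mul_right _ h
        _ = _ := by ring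
    omega
  have hσ : S.card ≤ Fintype.card V := card_le_univ S
  obtain ⟨T, hT, hbest⟩ := exists_best (fun u => cnt G S {u}) S.card hσ
  have h1 : ∑ v, cnt G S {v} = cnt G S univ := by
    rw [cnt_comm, cnt_eq_sum]
    exact Finset.sum_congr rfl fun v _ => cnt_comm G _ _
  have h2 : ∑ v ∈ T, cnt G S {v} = cnt G S T := by
    rw [cnt_comm G S T, cnt_eq_sum]
    exact Finset.sum_congr rfl fun v _ => cnt_comm G _ _
  rw [h1, h2] at hbest
  have h3 : cnt G S T ≤ cnt G (S ∪ T) (S ∪ T) :=
    cnt_mono G subset_union_left subset_union_right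
  have h5 : (S ∪ T).card ≤ 2 * S.card := by
    have := card_union_le S T
    omega
  have h6 : (S ∪ T).card < n := by
    have : 0 < S.card := card_pos.2 hne
    nlinarith
  have h7 := cnt_le_bd H1 H2 y A G hG1 hG2 (S ∪ T) (hmin _ h6)
  have h8 : ((S ∪ T).card : ℝ) ^ (1 + y) ≤ (2 * S.card : ℝ) ^ (1 + y) := by
    apply Real.rpow_le_rpow (by positivity) _ (by linarith)
    exact_mod_cast h5
  have hSpos : (0 : ℝ) < S.card := by exact_mod_cast card_pos.2 hne
  have hnpos : (0 : ℝ) < n := by exact_mod_cast hn0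
  have hLpos : (0 : ℝ) < L := by
    have : 0 < L := by omega
    exact_mod_cast this
  have h9 : (2 * (S.card : ℝ)) ^ (1 + y) = 2 * S.card * (2 * (S.card : ℝ)) ^ y := by
    rw [Real.rpow_add (by positivity), Real.rpow_one]
  have h10 : (2 * (S.card : ℝ)) ^ y ≤ (n : ℝ) ^ y / 16 := by
    have h11 : 2 * (S.card : ℝ) ≤ 2 / L * n := by
      rw [div_mul_eq_mul_div, le_div_iff₀ hLpos]
      have : ((L * S.card : ℕ) : ℝ) ≤ n := by exact_mod_cast hLS.le
      push_cast at this
      nlinarith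
    calc (2 * (S.card : ℝ)) ^ y ≤ (2 / L * n) ^ y :=
          Real.rpow_le_rpow (by positivity) h11 hy.le
      _ = (2 / (L : ℝ)) ^ y * (n : ℝ) ^ y := Real.mul_rpow (by positivity) (by positivity)
      _ ≤ 1 / 16 * (n : ℝ) ^ y := mul_le_mul_of_nonneg_right hL (by positivity)
      _ = _ := by ring
  have hbest' : (S.card : ℝ) * cnt G S univ ≤ n * cnt G S T := by exact_mod_cast hbest
  have h3' : (cnt G S T : ℝ) ≤ cnt G (S ∪ T) (S ∪ T) := by
    exact_mod_cast h3
  have h12 : (cnt G S T : ℝ) ≤ 2 * (A * (2 * S.card * ((n : ℝ) ^ y / 16))) := by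
    calc (cnt G S T : ℝ) ≤ 2 * (A * ((S ∪ T).card : ℝ) ^ (1 + y)) := h3'.trans h7
      _ ≤ 2 * (A * (2 * S.card : ℝ) ^ (1 + y)) := by
          have := mul_le_mul_of_nonneg_left h8 hA.le
          linarith
      _ = 2 * (A * (2 * S.card * (2 * (S.card : ℝ)) ^ y)) := by rw [h9]
      _ ≤ _ := by
          have : 2 * (S.card : ℝ) * (2 * (S.card : ℝ)) ^ y ≤ 2 * S.card * ((n : ℝ) ^ y / 16) :=
            mul_le_mul_of_nonneg_left h10 (by positivity)
          have := mul_le_mul_of_nonneg_left this hA.le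
          linarith
  have h13 : (S.card : ℝ) * cnt G S univ ≤ S.card * (A * (n * (n : ℝ) ^ y) / 4) := by
    calc (S.card : ℝ) * cnt G S univ ≤ n * cnt G S T := hbest'
      _ ≤ n * (2 * (A * (2 * S.card * ((n : ℝ) ^ y / 16)))) :=
          mul_le_mul_of_nonneg_left h12 hnpos.le
      _ = _ := by ring
  have h14 := le_of_mul_le_mul_left h13 hSpos
  rw [Real.rpow_add hnpos, Real.rpow_one]
  linarith

end counting

open scoped Classical in
/-- Regularisation. -/
theorem regularize (y : ℝ) (hy : 0 < y) (hy1 : y ≤ 1) : ∃ K : ℕ, 1 ≤ K ∧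
    ∀ (U1 U2 : Type) (H1 : SimpleGraph U1) (H2 : SimpleGraph U2),
      (¬ ∃ C : ℝ, ∀ n : ℕ, Bd H1 H2 y C n) →
      ∀ B : ℝ, ∃ (W : Type) (_ : Fintype W) (_ : DecidableEq W) (G : SimpleGraph W)
        (_ : DecidableRel G.Adj) (c : W → Bool) (d : ℕ),
        Nonempty W ∧ H1.Free G ∧ H2.Free G ∧ (∀ a b, G.Adj a b → c a ≠ c b) ∧
        (∀ w, d ≤ G.degree w ∧ G.degree w ≤ K * d) ∧
        B * (Fintype.card W : ℝ) ^ y ≤ d := by
  obtain ⟨L, hL3, hL⟩ : ∃ L : ℕ, 3 ≤ L ∧ (2 / (L : ℝ)) ^ y ≤ 1 / 16 := by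
    obtain ⟨L, hL⟩ := exists_nat_ge (2 * (16 : ℝ) ^ (1 / y))
    refine ⟨max L 3, le_max_right _ _, ?_⟩
    have h1 : 2 * (16 : ℝ) ^ (1 / y) ≤ ((max L 3 : ℕ) : ℝ) := hL.trans (by exact_mod_cast le_max_left _ _)
    have h2 : (0 : ℝ) < (16 : ℝ) ^ (1 / y) := by positivity
    have h3 : (0 : ℝ) < ((max L 3 : ℕ) : ℝ) := by linarith
    have h4 : 2 / ((max L 3 : ℕ) : ℝ) ≤ 1 / (16 : ℝ) ^ (1 / y) := by
      rw [div_le_div_iff₀ h3 h2]
      linarith
    calc (2 / ((max L 3 : ℕ) : ℝ)) ^ y ≤ (1 / (16 : ℝ) ^ (1 / y)) ^ y :=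
          Real.rpow_le_rpow (by positivity) h4 hy.le
      _ = 1 / 16 := by
          rw [Real.div_rpow (by norm_num) h2.le, Real.one_rpow, ← Real.rpow_mul (by norm_num),
            one_div_mul_cancel hy.ne', Real.rpow_one]
  refine ⟨6 * L, by omega, ?_⟩
  intro U1 U2 H1 H2 hunb B
  set A : ℝ := 3 * |B| + 1 with hAdef
  have hA : 0 < A := by positivity
  have hex : ∃ n : ℕ, ¬ Bd H1 H2 y A n := by
    by_contra h
    push Not at h
    exact hunb ⟨A, h⟩
  obtain ⟨n, hn, hmin⟩ : ∃ n : ℕ, (¬ Bd H1 H2 y A n) ∧ ∀ m < n, Bd H1 H2 y A m := by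
    refine ⟨Nat.find hex, Nat.find_spec hex, fun m hm => ?_⟩
    have := Nat.find_min hex hm
    exact not_not.1 this
  have hAn : 0 ≤ A * (n : ℝ) ^ (1 + y) := by positivity
  obtain ⟨G0, hfree1, hfree2, hm0⟩ : ∃ G : SimpleGraph (Fin n), H1.Free G ∧ H2.Free G ∧
      2 * (A * (n : ℝ) ^ (1 + y)) < (cnt G univ univ : ℝ) := by
    by_contra hno
    apply hn
    intro G h1 h2
    by_contra h3
    exact hno ⟨G, h1, h2, not_le.1 h3⟩
  have hn0 : 0 < n := by
    rcases Nat.eq_zero_or_pos n with h | h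
    · subst h
      simp [cnt] at hm0
      have : (0 : ℝ) ^ (1 + y) = 0 := Real.zero_rpow (by linarith)
      rw [this] at hm0
      simp at hm0
    · exact h
  have hnpos : (0 : ℝ) < n := by exact_mod_cast hn0
  set m0 := cnt G0 univ univ with hm0def
  set S : Finset (Fin n) := univ.filter fun v => L * m0 < n * cnt G0 {v} univ with hSdef
  have hDS : 4 * (cnt G0 S univ : ℝ) ≤ A * (n : ℝ) ^ (1 + y) := by
    have := big_vertices H1 H2 G0 hfree1 hfree2 y A hy hA L hL3 hL (by simpa using hmin) S (by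
      intro v hv
      rw [hSdef, mem_filter] at hv
      simpa using hv.2)
    simpa using this
  -- delete the vertices of `S`
  obtain ⟨G1, hG1adj⟩ : ∃ G1 : SimpleGraph (Fin n),
      ∀ a b, G1.Adj a b ↔ G0.Adj a b ∧ a ∉ S ∧ b ∉ S :=
    ⟨{ Adj := fun a b => G0.Adj a b ∧ a ∉ S ∧ b ∉ S
       symm := ⟨fun a b h => ⟨h.1.symm, h.2.2, h.2.1⟩⟩
       loopless := ⟨fun a h => G0.loopless.irrefl a h.1⟩ }, fun a b => Iff.rfl⟩
  have hG1 : m0 ≤ cnt G1 univ univ + 2 * cnt G0 S univ := by
    have h1 : ∀ a b : Fin n, (if G0.Adj a b then 1 else 0) ≤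
        (if G1.Adj a b then 1 else 0) + ((if a ∈ S then (if G0.Adj a b then 1 else 0) else 0) +
          (if b ∈ S then (if G0.Adj b a then 1 else 0) else 0)) := by
      intro a b
      simp only [hG1adj, G0.adj_comm b a]
      by_cases h3 : G0.Adj a b <;> by_cases h4 : a ∈ S <;> by_cases h5 : b ∈ S <;>
        simp [h3, h4, h5]
    have h2 : ∑ a, ∑ b, (if a ∈ S then (if G0.Adj a b then 1 else 0) else 0) = cnt G0 S univ := by
      unfold cnt
      rw [← Finset.sum_filter_add_sum_filter_not univ (fun a => a ∈ S)]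
      have e1 : (∑ a ∈ univ.filter (fun a => ¬ a ∈ S), ∑ b,
          (if a ∈ S then (if G0.Adj a b then 1 else 0) else 0)) = 0 := by
        apply Finset.sum_eq_zero
        intro a ha
        rw [mem_filter] at ha
        simp [ha.2]
      rw [e1, add_zero, Finset.filter_univ_mem]
      apply Finset.sum_congr rfl
      intro a ha
      simp [ha]
    have h3 : ∑ a, ∑ b, (if b ∈ S then (if G0.Adj b a then 1 else 0) else 0) =
        cnt G0 S univ := by
      rw [Finset.sum_comm]
      exact h2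
    calc m0 = ∑ a, ∑ b, (if G0.Adj a b then 1 else 0) := rfl
      _ ≤ ∑ a, ∑ b, ((if G1.Adj a b then 1 else 0) +
          ((if a ∈ S then (if G0.Adj a b then 1 else 0) else 0) +
          (if b ∈ S then (if G0.Adj b a then 1 else 0) else 0))) :=
          sum_le_sum fun a _ => sum_le_sum fun b _ => h1 a b
      _ = cnt G1 univ univ + (cnt G0 S univ + cnt G0 S univ) := by
          simp only [Finset.sum_add_distrib]
          rw [h2, h3]
          rfl
      _ = _ := by ring
  obtain ⟨c, G2, hG21, hcol, hhalf⟩ := exists_half G1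
  have hG2 : (3 : ℝ) * m0 ≤ 8 * cnt G2 univ univ := by
    have h1 : (m0 : ℝ) ≤ cnt G1 univ univ + 2 * cnt G0 S univ := by exact_mod_cast hG1
    have h2 : (cnt G1 univ univ : ℝ) ≤ 2 * cnt G2 univ univ := by exact_mod_cast hhalf
    linarith
  have hm0pos : (0 : ℝ) < m0 := by linarith
  have hG2pos : 0 < cnt G2 univ univ := by
    have : (0 : ℝ) < cnt G2 univ univ := by linarith
    exact_mod_cast this
  obtain ⟨W, hWne, hW⟩ := exists_minDeg G2 hG2pos
  have hWcard : W.card ≤ n := by simpa using card_le_univ W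
  set d : ℕ := ⌈3 * (m0 : ℝ) / (16 * n)⌉₊ with hd
  have hdge : 3 * (m0 : ℝ) / (16 * n) ≤ d := Nat.le_ceil _
  have hG20 : G2 ≤ G0 := fun a b h => ((hG1adj a b).1 (hG21 h)).1
  refine ⟨{x // x ∈ W}, inferInstance, inferInstance,
    G2.comap (Subtype.val : {x // x ∈ W} → Fin n), inferInstance, fun x => c x.1, d,
    ⟨⟨hWne.choose, hWne.choose_spec⟩⟩, ?_, ?_, ?_, ?_, ?_⟩
  · intro h
    apply hfree1
    refine h.trans ⟨⟨⟨Subtype.val, fun {a b} hab => hG20 hab⟩, Subtype.val_injective⟩⟩
  · intro h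
    apply hfree2
    refine h.trans ⟨⟨⟨Subtype.val, fun {a b} hab => hG20 hab⟩, Subtype.val_injective⟩⟩
  · intro a b hab
    exact hcol _ _ hab
  · intro v
    rw [degree_induce]
    constructor
    · rw [hd, Nat.ceil_le]
      have h1 : (cnt G2 univ univ : ℝ) ≤ 2 * n * cnt G2 {v.1} W := by
        have := hW v.1 v.2
        rw [Fintype.card_fin] at this
        exact_mod_cast this
      rw [div_le_iff₀ (by positivity)]
      nlinarith
    · have hv0 : 0 < cnt G2 {v.1} W := by
        have := hW v.1 v.2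
        by_contra h
        have h' : cnt G2 {v.1} W = 0 := by omega
        rw [h'] at this
        omega
      have hvS : v.1 ∉ S := by
        intro hvS
        have : cnt G2 {v.1} W = 0 := by
          rw [cnt_singleton_left]
          apply Finset.sum_eq_zero
          intro b _
          have : ¬ G2.Adj v.1 b := fun h => ((hG1adj _ _).1 (hG21 h)).2.1 hvS
          simp [this]
        omega
      have h1 : n * cnt G0 {v.1} univ ≤ L * m0 := by
        rw [hSdef, mem_filter] at hvS
        push Not at hvS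
        exact hvS (mem_univ _)
      have h2 : cnt G2 {v.1} W ≤ cnt G0 {v.1} univ := by
        unfold cnt
        apply Finset.sum_le_sum
        intro a _
        calc ∑ b ∈ W, (if G2.Adj a b then 1 else 0) ≤ ∑ b ∈ W, (if G0.Adj a b then 1 else 0) := by
              apply Finset.sum_le_sum
              intro b _
              by_cases h : G2.Adj a b
              · simp [h, hG20 h]
              · simp [h]
          _ ≤ _ := Finset.sum_le_sum_of_subset (subset_univ _)
      have h3 : (n : ℝ) * cnt G2 {v.1} W ≤ L * m0 := by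
        have : n * cnt G2 {v.1} W ≤ L * m0 := (Nat.mul_le_mul_left _ h2).trans h1
        exact_mod_cast this
      have h4 : 3 * (m0 : ℝ) ≤ 16 * n * d := by
        rw [div_le_iff₀ (by positivity)] at hdge
        linarith
      have h5 : (cnt G2 {v.1} W : ℝ) ≤ 6 * L * d := by
        have hLpos : (0 : ℝ) < L := by
          have : 0 < L := by omega
          exact_mod_cast this
        have h6 : (n : ℝ) * cnt G2 {v.1} W ≤ n * (6 * L * d) := by
          have h7 : 3 * (L * (m0 : ℝ)) ≤ L * (16 * n * d) := by nlinarith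
          have h8 : (0 : ℝ) ≤ L * n * d := by positivity
          nlinarith
        exact le_of_mul_le_mul_left h6 hnpos
      exact_mod_cast h5
  · have h1 : (Fintype.card {x // x ∈ W} : ℝ) ^ y ≤ (n : ℝ) ^ y := by
      apply Real.rpow_le_rpow (by positivity) _ hy.le
      simpa using hWcard
    have h2 : B * (Fintype.card {x // x ∈ W} : ℝ) ^ y ≤ |B| * (n : ℝ) ^ y := by
      calc B * (Fintype.card {x // x ∈ W} : ℝ) ^ y ≤ |B| * (Fintype.card {x // x ∈ W} : ℝ) ^ y :=
            mul_le_mul_of_nonneg_right (le_abs_self B) (by positivity)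
        _ ≤ _ := mul_le_mul_of_nonneg_left h1 (abs_nonneg B)
    have h3 : |B| * (n : ℝ) ^ y ≤ 3 * (m0 : ℝ) / (16 * n) := by
      rw [le_div_iff₀ (by positivity)]
      have h4 : 2 * (A * (n * (n : ℝ) ^ y)) < m0 := by
        have : (n : ℝ) ^ (1 + y) = n * (n : ℝ) ^ y := by
          rw [Real.rpow_add hnpos, Real.rpow_one]
        rw [← this]
        exact hm0
      have h5 : (0 : ℝ) < n * (n : ℝ) ^ y := by positivity
      have h6 : |B| * (n * (n : ℝ) ^ y) * 3 ≤ A * (n * (n : ℝ) ^ y) := by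
        rw [hAdef]
        nlinarith [abs_nonneg B]
      nlinarith
    linarith

end Pool.Agent.Helper25.TH
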