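import Mathlib
import Pool.Agent.Helper55.JS.Final
import Pool.Agent.Helper25.TH.Reg

/-!
# Blowups of spiders in graphs without large theta graphs

The proof combines `heavy` and `light` of project JS (`Pool.Agent.Helper55.JS`): a graph with many
closed walks of length `2k` contains the blowup of a three-legged spider, hence a theta graph, and
in a dense graph with few closed walks of length `2k` the blowups of all spiders with legs of
length at most `k` occur.
-/

set_option autoImplicit false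

namespace Pool.Agent.Helper25.TH

open Finset Pool.Agent.Helper55.JS

/-- the theta graph is contained in the blowup of a spider with three legs -/
lemma theta_sub {a b k t : ℕ} (ha : 1 ≤ a) (hb : 1 ≤ b) :
    (blow 2 t ![a, b]).IsContained (blow 3 t ![a, b, k]) := by
  have h : ∀ c : Fin 2, (![a, b] : Fin 2 → ℕ) c - 1 =
      (![a, b, k] : Fin 3 → ℕ) c.castSucc - 1 := by
    intro c
    fin_cases c <;> rfl
  have h' : ∀ c : Fin 2, (![a, b, k] : Fin 3 → ℕ) c.castSucc = (![a, b] : Fin 2 → ℕ) c := by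
    intro c
    fin_cases c <;> rfl
  let f : BV 2 t ![a, b] → BV 3 t ![a, b, k] :=
    Sum.map Fin.castSucc (fun q => (q.1, q.2.map
      (fun σ => ⟨σ.1.castSucc, Fin.cast (h σ.1) σ.2⟩)))
  have hf : Function.Injective f := by
    rintro (x | ⟨x, _ | ⟨c, i⟩⟩) (y | ⟨y, _ | ⟨c', i'⟩⟩) hxy
    · simpa [f] using hxy
    · simp [f] at hxy
    · simp [f] at hxy
    · simp [f] at hxy
    · simpa [f] using hxy
    · simp [f] at hxy
    · simp [f] at hxy
    · simp [f] at hxy
    · simp only [f, Sum.map_inr, Option.map_some, Sum.inr.injEq, Prod.mk.injEq,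
        Option.some.injEq, Sigma.mk.injEq, Fin.castSucc_inj] at hxy
      obtain ⟨h1, h2, h3⟩ := hxy
      subst h1
      subst h2
      have h4 : i = i' := by
        have := eq_of_heq h3
        simpa using this
      rw [h4]
  have hpt : ∀ (x : Fin t) (c : Fin 2) (i : ℕ),
      f (pt x c i) = pt x c.castSucc i := by
    intro x c i
    unfold pt
    by_cases h0 : i = 0
    · simp [h0, f]
    · rw [if_neg h0, if_neg h0]
      by_cases h1 : i - 1 < (![a, b] : Fin 2 → ℕ) c - 1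
      · have h2 : i - 1 < (![a, b, k] : Fin 3 → ℕ) c.castSucc - 1 := by
          rw [← h c]; exact h1
        rw [dif_pos h1, dif_pos h2]
        simp [f]
      · have h2 : ¬ i - 1 < (![a, b, k] : Fin 3 → ℕ) c.castSucc - 1 := by
          rw [← h c]; exact h1
        rw [dif_neg h1, dif_neg h2]
        simp [f]
  refine ⟨⟨⟨f, ?_⟩, hf⟩⟩
  intro x y hxy
  unfold blow at hxy ⊢
  rw [SimpleGraph.fromRel_adj] at hxy ⊢
  obtain ⟨hne, hxy⟩ := hxy
  refine ⟨fun h => hne (hf h), ?_⟩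
  rcases hxy with ⟨x', c, i, hi, rfl, rfl⟩ | ⟨x', c, i, hi, rfl, rfl⟩
  · left
    exact ⟨x', c.castSucc, i, by rw [h' c]; exact hi, hpt _ _ _, hpt _ _ _⟩
  · right
    exact ⟨x', c.castSucc, i, by rw [h' c]; exact hi, hpt _ _ _, hpt _ _ _⟩

/-- Graphs which contain neither the blowup of a spider nor a theta graph. -/
theorem theta_free {s t t' k : ℕ} {j : Fin s → ℕ} (hs : 2 ≤ s) (ht : 1 ≤ t) (ht' : 1 ≤ t')
    (hj : ∀ c, 1 ≤ j c) (hjk : ∀ c, j c ≤ k) {a b : ℕ} (ha : 1 ≤ a) (hb : 1 ≤ b)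
    (hab : a + b = k) :
    ∃ C : ℝ, ∀ (n : ℕ) (G : SimpleGraph (Fin n)), (blow s t j).Free G →
      (blow 2 t' ![a, b]).Free G →
      (G.edgeSet.ncard : ℝ) ≤ C * (n : ℝ) ^ (1 + ((s : ℝ) - 1) / ((∑ c, j c : ℕ) : ℝ)) := by
  classical
  have hsum : s ≤ ∑ c, j c := by
    calc s = ∑ _c : Fin s, 1 := by simp
      _ ≤ _ := sum_le_sum fun c _ => hj c
  have hsR : (2 : ℝ) ≤ s := by exact_mod_cast hs
  have hsumR : (s : ℝ) ≤ ((∑ c, j c : ℕ) : ℝ) := by exact_mod_cast hsum
  have he0 : (0 : ℝ) < ((∑ c, j c : ℕ) : ℝ) := by linarith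
  obtain ⟨y, hydef⟩ : ∃ y : ℝ, y = ((s : ℝ) - 1) / ((∑ c, j c : ℕ) : ℝ) := ⟨_, rfl⟩
  have hy : 0 < y := by
    rw [hydef]
    apply div_pos _ he0
    linarith
  have hy1 : y ≤ 1 := by
    rw [hydef, div_le_one he0]
    linarith
  rw [← hydef]
  suffices hC : ∃ C : ℝ, ∀ n : ℕ, Bd (blow s t j) (blow 2 t' ![a, b]) y C n by
    obtain ⟨C, hC⟩ := hC
    refine ⟨C, fun n G h1 h2 => ?_⟩
    have h3 := hC n G h1 h2
    rw [Pool.Agent.Helper55.JS.RG.Reg.cnt_univ] at h3
    have h4 : G.edgeSet.ncard = #G.edgeFinset := by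
      rw [← SimpleGraph.coe_edgeFinset, Set.ncard_coe_finset]
    rw [h4]
    push_cast at h3
    linarith
  by_contra hcon
  obtain ⟨K, hK, hreg⟩ := regularize y hy hy1
  have hKR : (1 : ℝ) ≤ K := by exact_mod_cast hK
  obtain ⟨T, hT, hheavy⟩ := heavy (t := t') (j1 := a) (j2 := b) (k := k) (by omega) (by omega)
    (by omega) ht' hKR
  obtain ⟨M0, hlight⟩ := light (s := s) (t := t) (by omega) ht hj hjk hKR
    (by linarith : (0 : ℝ) < T)
  obtain ⟨V, _, _, G, _, c, d, hne, hfree1, hfree2, hc, hdeg, hd⟩ :=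
    hreg _ _ (blow s t j) (blow 2 t' ![a, b]) hcon (max 1 M0)
  have hn1 : (1 : ℝ) ≤ Fintype.card V := by exact_mod_cast Fintype.card_pos
  have hB1 : 1 ≤ max 1 M0 := le_max_left _ _
  have hny : (1 : ℝ) ≤ (Fintype.card V : ℝ) ^ y :=
    Real.one_le_rpow hn1 hy.le
  have hdB : max 1 M0 ≤ (d : ℝ) := by
    refine le_trans ?_ hd
    nlinarith
  have hd1 : (1 : ℝ) ≤ d := hB1.trans hdB
  have hd0 : (0 : ℝ) < d := by linarith
  have hdeg1 : ∀ v, (d : ℝ) ≤ dg G v := fun v => by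
    rw [dg_eq_degree]; exact_mod_cast (hdeg v).1
  have hdeg2 : ∀ v, dg G v ≤ K * (d : ℝ) := fun v => by
    rw [dg_eq_degree]; exact_mod_cast (hdeg v).2
  rcases le_total (T * Fintype.card V * (d : ℝ) ^ k) (∑ v, W G (2 * k) v v) with h | h
  · exact hfree2 ((theta_sub ha hb).trans (hheavy V G d hd0 hne hdeg2 h))
  · apply hfree1
    refine hlight V G d hd0 hne hdeg1 hdeg2 h ((le_max_right _ _).trans hdB) ?_
    have h1 : (max 1 M0 * (Fintype.card V : ℝ) ^ y) ^ (∑ c, j c) ≤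
        (d : ℝ) ^ (∑ c, j c) := by gcongr
    refine le_trans ?_ h1
    rw [mul_pow]
    have h2 : ((Fintype.card V : ℝ) ^ y) ^ (∑ c, j c) = (Fintype.card V : ℝ) ^ (s - 1) := by
      rw [← Real.rpow_natCast, ← Real.rpow_mul (by positivity), hydef,
        div_mul_cancel₀ _ he0.ne', ← Real.rpow_natCast]
      congr 1
      rw [Nat.cast_sub (by omega)]
      simp
    rw [h2]
    have h3 : M0 ≤ max 1 M0 ^ (∑ c, j c) :=
      (le_max_right _ _).trans (le_self_pow₀ hB1 (by omega))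
    gcongr

end Pool.Agent.Helper25.TH
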